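import Mathlib

namespace Pool.Agent.MP_fa04ef_co

/-- `π` contains the pattern `σ` of length three (given by its one-line notation): there are
positions `p 0 < p 1 < p 2` whose values are in the same relative order as `σ 0, σ 1, σ 2`. -/
def Contains {n : ℕ} (π : Equiv.Perm (Fin n)) (σ : Fin 3 → ℕ) : Prop :=
  ∃ p : Fin 3 → Fin n, StrictMono p ∧ ∀ s t : Fin 3, π (p s) < π (p t) ↔ σ s < σ t

/-- The number of permutations of an `n`-element chain that avoid `σ` and all of whose cycles
(fixed points included) have length in `S`; the length of the cycle through `i` is the minimal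
period of `i` under `π`. -/
noncomputable def a (S : Set ℕ) (σ : Fin 3 → ℕ) (n : ℕ) : ℕ :=
  Set.ncard {π : Equiv.Perm (Fin n) | ¬ Contains π σ ∧ ∀ i, Function.minimalPeriod π i ∈ S}

end Pool.Agent.MP_fa04ef_co
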